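import Mathlib

/-!
# Elementary facts on `1/√k` and convex sequences (inequality (*), helper85)
-/

namespace Pool.Agent.H85.GU

open Finset

noncomputable section

/-- `P n = ∑_{k=1}^n 1/√k`. -/
def P (n : ℕ) : ℝ := ∑ k ∈ range n, 1 / Real.sqrt ((k : ℝ) + 1)

lemma P_zero : P 0 = 0 := by simp [P]

lemma P_succ (n : ℕ) : P (n + 1) = P n + 1 / Real.sqrt ((n : ℝ) + 1) := by
  unfold P
  rw [sum_range_succ]

/-- `H n = P n - 2 √n`. -/
def H (n : ℕ) : ℝ := P n - 2 * Real.sqrt n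

lemma step_le (n : ℕ) : 1 / Real.sqrt ((n : ℝ) + 1) ≤ 2 * (Real.sqrt ((n : ℝ) + 1) - Real.sqrt n) := by
  have h1 : 0 < Real.sqrt ((n : ℝ) + 1) := Real.sqrt_pos.mpr (by positivity)
  have h0 : 0 ≤ Real.sqrt (n : ℝ) := Real.sqrt_nonneg _
  have hs : Real.sqrt ((n : ℝ) + 1) ^ 2 = (n : ℝ) + 1 := Real.sq_sqrt (by positivity)
  have hs0 : Real.sqrt (n : ℝ) ^ 2 = (n : ℝ) := Real.sq_sqrt (by positivity)
  rw [div_le_iff₀ h1]
  nlinarith [sq_nonneg (Real.sqrt ((n : ℝ) + 1) - Real.sqrt n)]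

lemma step_ge (n : ℕ) : 2 * (Real.sqrt ((n : ℝ) + 2) - Real.sqrt ((n : ℝ) + 1)) ≤ 1 / Real.sqrt ((n : ℝ) + 1) := by
  have h1 : 0 < Real.sqrt ((n : ℝ) + 1) := Real.sqrt_pos.mpr (by positivity)
  have hs : Real.sqrt ((n : ℝ) + 1) ^ 2 = (n : ℝ) + 1 := Real.sq_sqrt (by positivity)
  have hs0 : Real.sqrt ((n : ℝ) + 2) ^ 2 = (n : ℝ) + 2 := Real.sq_sqrt (by positivity)
  rw [le_div_iff₀ h1]
  nlinarith [sq_nonneg (Real.sqrt ((n : ℝ) + 2) - Real.sqrt ((n : ℝ) + 1))]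

lemma P_le (n : ℕ) : P n ≤ 2 * Real.sqrt n := by
  induction n with
  | zero => simp [P_zero]
  | succ n ih =>
    rw [P_succ]
    have := step_le n
    push_cast
    linarith

lemma H_nonpos (n : ℕ) : H n ≤ 0 := by
  unfold H
  linarith [P_le n]

lemma H_antitone : Antitone H := by
  apply antitone_nat_of_succ_le
  intro n
  unfold H
  rw [P_succ]
  have := step_le n
  push_cast
  linarith

lemma H_ge (n : ℕ) : -2 ≤ H n := by
  have key : ∀ n : ℕ, 2 * Real.sqrt ((n : ℝ) + 1) - 2 ≤ P n := by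
    intro n
    induction n with
    | zero => simp [P_zero]
    | succ n ih =>
      rw [P_succ]
      have := step_ge n
      have e : ((n + 1 : ℕ) : ℝ) + 1 = (n : ℝ) + 2 := by push_cast; ring
      rw [e]
      linarith
  unfold H
  have h1 := key n
  have h2 : Real.sqrt (n : ℝ) ≤ Real.sqrt ((n : ℝ) + 1) := Real.sqrt_le_sqrt (by linarith)
  linarith

/-- The limit of `H` (this is `ζ(1/2)`). -/
def Zlim : ℝ := ⨅ n, H n

lemma H_tendsto : Filter.Tendsto H Filter.atTop (nhds Zlim) := by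
  apply tendsto_atTop_ciInf H_antitone
  refine ⟨-2, ?_⟩
  rintro _ ⟨n, rfl⟩
  exact H_ge n

lemma Zlim_nonpos : Zlim ≤ 0 :=
  le_of_tendsto' H_tendsto H_nonpos

/-- `V A n = 1/√(n+A)`. -/
def V (A : ℕ) (n : ℕ) : ℝ := 1 / Real.sqrt ((n : ℝ) + A)

lemma V_nonneg (A n : ℕ) : 0 ≤ V A n := by unfold V; positivity

lemma V_antitone {A : ℕ} (hA : 0 < A) : Antitone (V A) := by
  apply antitone_nat_of_succ_le
  intro n
  unfold V
  have hA' : (0 : ℝ) < A := by exact_mod_cast hA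
  apply one_div_le_one_div_of_le
  · exact Real.sqrt_pos.mpr (by positivity)
  · exact Real.sqrt_le_sqrt (by push_cast; linarith)

lemma inv_sqrt_convex {x : ℝ} (hx : 0 < x) :
    2 * (1 / Real.sqrt (x + 1)) ≤ 1 / Real.sqrt x + 1 / Real.sqrt (x + 2) := by
  have h0 : 0 < Real.sqrt x := Real.sqrt_pos.mpr hx
  have h1 : 0 < Real.sqrt (x + 1) := Real.sqrt_pos.mpr (by positivity)
  have h2 : 0 < Real.sqrt (x + 2) := Real.sqrt_pos.mpr (by positivity)
  have s0 : Real.sqrt x ^ 2 = x := Real.sq_sqrt (by positivity)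
  have s1 : Real.sqrt (x + 1) ^ 2 = x + 1 := Real.sq_sqrt (by positivity)
  have s2 : Real.sqrt (x + 2) ^ 2 = x + 2 := Real.sq_sqrt (by positivity)
  set a := Real.sqrt x
  set b := Real.sqrt (x + 1)
  set c := Real.sqrt (x + 2)
  -- a c ≤ b^2 and a + c ≥ 2 sqrt(a c)
  have hac : a * c ≤ b ^ 2 := by nlinarith [sq_nonneg (a - c)]
  have hac0 : 0 < a * c := mul_pos h0 h2
  -- (a + c) b ≥ 2 a c
  have hkey : 2 * (a * c) ≤ (a + c) * b := by
    have h3 : (2 * (a * c)) ^ 2 ≤ ((a + c) * b) ^ 2 := by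
      have : (a + c) ^ 2 ≥ 4 * (a * c) := by nlinarith [sq_nonneg (a - c)]
      calc (2 * (a * c)) ^ 2 = 4 * (a * c) * (a * c) := by ring
        _ ≤ 4 * (a * c) * b ^ 2 := by
            apply mul_le_mul_of_nonneg_left hac; positivity
        _ ≤ (a + c) ^ 2 * b ^ 2 := by
            apply mul_le_mul_of_nonneg_right this; positivity
        _ = ((a + c) * b) ^ 2 := by ring
    exact le_of_sq_le_sq h3 (by positivity)
  have e : 1 / a + 1 / c = (a + c) / (a * c) := by field_simp; ring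
  rw [e, mul_one_div, div_le_div_iff₀ h1 hac0]
  exact hkey

lemma V_convex {A : ℕ} (hA : 0 < A) (n : ℕ) : 0 ≤ V A n - 2 * V A (n + 1) + V A (n + 2) := by
  unfold V
  have hA' : (0 : ℝ) < A := by exact_mod_cast hA
  have h := inv_sqrt_convex (x := (n : ℝ) + A) (by positivity)
  have e1 : ((n + 1 : ℕ) : ℝ) + A = (n : ℝ) + A + 1 := by push_cast; ring
  have e2 : ((n + 2 : ℕ) : ℝ) + A = (n : ℝ) + A + 2 := by push_cast; ring
  rw [e1, e2]
  linarith

/-- The weight `w(d) = 1/√d - 1/√(d+A)`. -/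
def w (A : ℕ) (d : ℕ) : ℝ := 1 / Real.sqrt (d : ℝ) - V A d

lemma w_nonneg (A : ℕ) {d : ℕ} (hd : 0 < d) : 0 ≤ w A d := by
  unfold w V
  have hd' : (0 : ℝ) < d := by exact_mod_cast hd
  have : 1 / Real.sqrt ((d : ℝ) + A) ≤ 1 / Real.sqrt (d : ℝ) := by
    apply one_div_le_one_div_of_le
    · exact Real.sqrt_pos.mpr hd'
    · exact Real.sqrt_le_sqrt (by have : (0:ℝ) ≤ A := by positivity
                                  linarith)
  linarith

/-- `w` is decreasing. -/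
lemma w_succ_le (A : ℕ) {d : ℕ} (hd : 0 < d) : w A (d + 1) ≤ w A d := by
  unfold w V
  have hd' : (0 : ℝ) < d := by exact_mod_cast hd
  have hA : (0 : ℝ) ≤ A := by positivity
  -- 1/√d - 1/√(d+1) ≥ 1/√(d+A) - 1/√(d+A+1)
  have key : ∀ y : ℝ, 0 < y → 1 / Real.sqrt y - 1 / Real.sqrt (y + 1)
      = 1 / (Real.sqrt y * Real.sqrt (y + 1) * (Real.sqrt y + Real.sqrt (y + 1))) := by
    intro y hy
    have h0 : 0 < Real.sqrt y := Real.sqrt_pos.mpr hy
    have h1 : 0 < Real.sqrt (y + 1) := Real.sqrt_pos.mpr (by positivity)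
    have s0 : Real.sqrt y ^ 2 = y := Real.sq_sqrt (by positivity)
    have s1 : Real.sqrt (y + 1) ^ 2 = y + 1 := Real.sq_sqrt (by positivity)
    rw [div_sub_div _ _ h0.ne' h1.ne', div_eq_div_iff (by positivity) (by positivity)]
    linear_combination (Real.sqrt y * Real.sqrt (y + 1)) * (s1 - s0)
  have e1 : ((d + 1 : ℕ) : ℝ) = (d : ℝ) + 1 := by push_cast; ring
  have e2 : ((d + 1 : ℕ) : ℝ) + A = ((d : ℝ) + A) + 1 := by push_cast; ring
  rw [e2, e1]
  have k1 := key d hd'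
  have k2 := key ((d : ℝ) + A) (by positivity)
  have hle : 1 / (Real.sqrt ((d : ℝ) + A) * Real.sqrt ((d : ℝ) + A + 1) *
        (Real.sqrt ((d : ℝ) + A) + Real.sqrt ((d : ℝ) + A + 1)))
      ≤ 1 / (Real.sqrt (d : ℝ) * Real.sqrt ((d : ℝ) + 1) * (Real.sqrt (d : ℝ) + Real.sqrt ((d : ℝ) + 1))) := by
    have a0 : 0 < Real.sqrt (d : ℝ) := Real.sqrt_pos.mpr hd'
    have a1 : 0 < Real.sqrt ((d : ℝ) + 1) := Real.sqrt_pos.mpr (by positivity)
    have b0 : Real.sqrt (d : ℝ) ≤ Real.sqrt ((d : ℝ) + A) := Real.sqrt_le_sqrt (by linarith)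
    have b1 : Real.sqrt ((d : ℝ) + 1) ≤ Real.sqrt ((d : ℝ) + A + 1) := Real.sqrt_le_sqrt (by linarith)
    apply one_div_le_one_div_of_le (by positivity)
    gcongr
  linarith

lemma w_antitone (A : ℕ) {d D : ℕ} (hd : 0 < d) (hdD : d ≤ D) : w A D ≤ w A d := by
  induction D, hdD using Nat.le_induction with
  | base => exact le_rfl
  | succ n hn ih => exact (w_succ_le A (lt_of_lt_of_le hd hn)).trans ih

lemma sum_w_le (A X : ℕ) : ∑ d ∈ Icc 1 X, w A d ≤ 2 * Real.sqrt A := by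
  -- sum over d = k+1, k < X
  have h1 : ∑ d ∈ Icc 1 X, w A d = P X - (P (X + A) - P A) := by
    induction X with
    | zero => simp [P_zero]
    | succ n ih =>
      rw [Finset.sum_Icc_succ_top (by omega), ih]
      have e : n + 1 + A = (n + A) + 1 := by ring
      rw [e, P_succ, P_succ]
      unfold w V
      push_cast
      have e2 : (n : ℝ) + 1 + A = (n : ℝ) + A + 1 := by ring
      rw [e2]
      ring
  rw [h1]
  have h2 : P X ≤ P (X + A) := by
    unfold P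
    apply sum_le_sum_of_subset_of_nonneg
    · intro k hk
      simp only [mem_range] at *
      omega
    · intro k _ _
      positivity
  linarith [P_le A]

end

end Pool.Agent.H85.GU
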