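import Mathlib

/-!
# Fejér positivity for convex sequences (inequality (*), helper85)
-/

namespace Pool.Agent.H85.GU

open Finset

noncomputable section

/-- `K z n = |∑_{j<n} z^j|^2`. -/
def KK (z : ℂ) (n : ℕ) : ℝ := Complex.normSq (∑ j ∈ range n, z ^ j)

/-- `DD z n = 1 + 2 ∑_{d=1}^n Re z^d`. -/
def DD (z : ℂ) (n : ℕ) : ℝ := 1 + 2 * ∑ d ∈ Icc 1 n, (z ^ d).re

lemma KK_nonneg (z : ℂ) (n : ℕ) : 0 ≤ KK z n := Complex.normSq_nonneg _

lemma re_pow_mul_conj {z : ℂ} (hz : Complex.normSq z = 1) {j n : ℕ} (hj : j ≤ n) :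
    (z ^ j * (starRingEnd ℂ) (z ^ n)).re = (z ^ (n - j)).re := by
  have h1 : z * (starRingEnd ℂ) z = 1 := by
    rw [Complex.mul_conj, hz]; simp
  have h2 : z ^ j * (starRingEnd ℂ) (z ^ n) = (starRingEnd ℂ) (z ^ (n - j)) := by
    have e : n = (n - j) + j := by omega
    conv_lhs => rw [e]
    rw [pow_add, map_mul, mul_comm ((starRingEnd ℂ) (z ^ (n - j))), ← mul_assoc, map_pow (starRingEnd ℂ) z j,
      ← mul_pow, h1, one_pow, one_mul]
  rw [h2, Complex.conj_re]

lemma KK_succ {z : ℂ} (hz : Complex.normSq z = 1) (n : ℕ) : KK z (n + 1) = KK z n + DD z n := by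
  unfold KK DD
  rw [sum_range_succ, Complex.normSq_add, sum_mul, Complex.re_sum]
  have h1 : Complex.normSq (z ^ n) = 1 := by rw [map_pow, hz, one_pow]
  have h2 : ∑ j ∈ range n, (z ^ j * (starRingEnd ℂ) (z ^ n)).re = ∑ d ∈ Icc 1 n, (z ^ d).re := by
    have h3 : ∑ j ∈ range n, (z ^ j * (starRingEnd ℂ) (z ^ n)).re = ∑ j ∈ range n, (z ^ (n - j)).re := by
      apply sum_congr rfl
      intro j hj
      exact re_pow_mul_conj hz (mem_range.mp hj).le
    rw [h3]
    apply sum_nbij' (fun j => n - j) (fun d => n - d)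
    · intro j hj; simp only [mem_range, mem_Icc] at *; omega
    · intro j hj; simp only [mem_range, mem_Icc] at *; omega
    · intro j hj; simp only [mem_range] at *; omega
    · intro j hj; simp only [mem_Icc] at *; omega
    · intro j hj; rfl
  rw [h1, h2]
  ring

/-- Fejér positivity: for a convex decreasing sequence `V`,
`V 0 + 2 ∑_{d=1}^X V d Re z^d ≥ V X · DD z X`. -/
lemma convex_pos {V : ℕ → ℝ} (hanti : Antitone V) (hconv : ∀ n, 0 ≤ V n - 2 * V (n + 1) + V (n + 2))
    {z : ℂ} (hz : Complex.normSq z = 1) (X : ℕ) :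
    V X * DD z X ≤ V 0 + 2 * ∑ d ∈ Icc 1 X, V d * (z ^ d).re := by
  have key : ∀ n : ℕ, V n * DD z n + (V n - V (n + 1)) * KK z n
      ≤ V 0 + 2 * ∑ d ∈ Icc 1 n, V d * (z ^ d).re := by
    intro n
    induction n with
    | zero => simp [DD, KK]
    | succ n ih =>
      have h1 : DD z (n + 1) = DD z n + 2 * (z ^ (n + 1)).re := by
        unfold DD
        rw [Finset.sum_Icc_succ_top (by omega)]
        ring
      have h2 := KK_succ hz n
      rw [Finset.sum_Icc_succ_top (by omega), h1]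
      have h3 := mul_nonneg (hconv n) (KK_nonneg z (n + 1))
      have h4 : V (n + 1) * (DD z n + 2 * (z ^ (n + 1)).re) + (V (n + 1) - V (n + 2)) * KK z (n + 1)
          = V n * DD z n + (V n - V (n + 1)) * KK z n + 2 * (V (n + 1) * (z ^ (n + 1)).re)
            - (V n - 2 * V (n + 1) + V (n + 2)) * KK z (n + 1) := by
        rw [h2]; ring
      have e : n + 1 + 1 = n + 2 := rfl
      rw [e, h4]
      linarith
  have h := key X
  have h2 : 0 ≤ (V X - V (X + 1)) * KK z X :=
    mul_nonneg (by linarith [hanti (Nat.le_succ X)]) (KK_nonneg z X)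
  linarith

end

end Pool.Agent.H85.GU
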