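import Mathlib

/-!
# Sums over units of `ZMod N` by Möbius inversion (inequality (*), helper85)
-/

namespace Pool.Agent.H85.GU

open Finset

noncomputable section

lemma units_sum_eq (N : ℕ) [NeZero N] (G : ZMod N → ℝ) :
    ∑ b : (ZMod N)ˣ, G b = ∑ k ∈ range N, if k.Coprime N then G (k : ZMod N) else 0 := by
  classical
  rw [← sum_filter]
  refine sum_bij' (fun (b : (ZMod N)ˣ) _ => (b : ZMod N).val)
    (fun k hk => ((ZMod.isUnit_iff_coprime k N).mpr (mem_filter.mp hk).2).unit) ?_ ?_ ?_ ?_ ?_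
  · intro b _
    simp only [mem_filter, mem_range]
    refine ⟨ZMod.val_lt _, ?_⟩
    exact ZMod.val_coe_unit_coprime b
  · intro k _
    exact mem_univ _
  · intro b _
    apply Units.ext
    simp
  · intro k hk
    simp only [mem_filter, mem_range] at hk
    simp only [IsUnit.unit_spec]
    exact ZMod.val_natCast_of_lt hk.1
  · intro b _
    simp

lemma coprime_ind (k N : ℕ) (hN : N ≠ 0) : (if k.Coprime N then (1 : ℝ) else 0)
    = ∑ g ∈ N.divisors, if g ∣ k then (ArithmeticFunction.moebius g : ℝ) else 0 := by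
  rw [← sum_filter]
  have h1 : (N.divisors.filter (fun g => g ∣ k)) = (Nat.gcd k N).divisors := by
    ext g
    simp only [mem_filter, Nat.mem_divisors, Nat.dvd_gcd_iff]
    constructor
    · rintro ⟨⟨h1, _⟩, h2⟩
      exact ⟨⟨h2, h1⟩, Nat.gcd_ne_zero_right hN⟩
    · rintro ⟨⟨h1, h2⟩, _⟩
      exact ⟨⟨h2, hN⟩, h1⟩
  rw [h1]
  have h2 : (∑ g ∈ (Nat.gcd k N).divisors, (ArithmeticFunction.moebius g : ℤ))
      = if Nat.gcd k N = 1 then 1 else 0 := by
    rw [← ArithmeticFunction.coe_mul_zeta_apply, ArithmeticFunction.moebius_mul_coe_zeta,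
      ArithmeticFunction.one_apply]
  have h3 : (∑ g ∈ (Nat.gcd k N).divisors, (ArithmeticFunction.moebius g : ℝ))
      = ((∑ g ∈ (Nat.gcd k N).divisors, (ArithmeticFunction.moebius g : ℤ) : ℤ) : ℝ) := by
    push_cast; rfl
  rw [h3, h2]
  unfold Nat.Coprime
  split_ifs <;> simp

lemma unit_sum (N : ℕ) [NeZero N] (G : ZMod N → ℝ) :
    ∑ b : (ZMod N)ˣ, G b = ∑ g ∈ N.divisors, (ArithmeticFunction.moebius g : ℝ) *
      ∑ k ∈ range (N / g), G ((g * k : ℕ) : ZMod N) := by
  classical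
  have hN : N ≠ 0 := NeZero.ne N
  rw [units_sum_eq]
  have h1 : ∀ k ∈ range N, (if k.Coprime N then G (k : ZMod N) else 0)
      = ∑ g ∈ N.divisors, if g ∣ k then (ArithmeticFunction.moebius g : ℝ) * G (k : ZMod N) else 0 := by
    intro k _
    have e : (if k.Coprime N then G (k : ZMod N) else 0) = (if k.Coprime N then (1 : ℝ) else 0) * G (k : ZMod N) := by
      split_ifs <;> simp
    rw [e, coprime_ind k N hN, sum_mul]
    apply sum_congr rfl
    intro g _
    split_ifs <;> simp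
  rw [sum_congr rfl h1, sum_comm]
  apply sum_congr rfl
  intro g hg
  have hgN : g ∣ N := Nat.dvd_of_mem_divisors hg
  have hg0 : 0 < g := Nat.pos_of_mem_divisors hg
  rw [← sum_filter, mul_sum]
  symm
  apply sum_nbij' (fun j => g * j) (fun k => k / g)
  · intro j hj
    simp only [mem_range, mem_filter] at *
    refine ⟨?_, dvd_mul_right _ _⟩
    calc g * j < g * (N / g) := Nat.mul_lt_mul_of_pos_left hj hg0
      _ = N := Nat.mul_div_cancel' hgN
  · intro k hk
    simp only [mem_range, mem_filter] at *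
    exact Nat.div_lt_div_of_lt_of_dvd hgN hk.1
  · intro j _
    exact Nat.mul_div_cancel_left j hg0
  · intro k hk
    simp only [mem_range, mem_filter] at *
    exact Nat.mul_div_cancel' hk.2
  · intro j _
    rfl

/-- multiplicative weight -/
def Fa (a : ℕ) : ArithmeticFunction ℝ := ⟨fun h => Real.sqrt ((h : ℝ) * (Nat.gcd h a : ℝ)), by simp⟩

lemma Fa_apply (a h : ℕ) : Fa a h = Real.sqrt ((h : ℝ) * (Nat.gcd h a : ℝ)) := rfl

lemma Fa_mult (a : ℕ) : (Fa a).IsMultiplicative := by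
  constructor
  · simp [Fa_apply]
  · intro m n hmn
    simp only [Fa_apply]
    have h : Nat.gcd (m * n) a = Nat.gcd m a * Nat.gcd n a := by
      rw [Nat.gcd_comm, Nat.Coprime.gcd_mul a hmn, Nat.gcd_comm a m, Nat.gcd_comm a n]
    rw [h, ← Real.sqrt_mul (by positivity)]
    congr 1
    push_cast
    ring

/-- `(μ * Fa a) N`. -/
def Ja (a : ℕ) : ArithmeticFunction ℝ := (ArithmeticFunction.moebius : ArithmeticFunction ℝ) * Fa a

lemma Ja_mult (a : ℕ) : (Ja a).IsMultiplicative :=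
  ArithmeticFunction.isMultiplicative_moebius.intCast.mul (Fa_mult a)

lemma Ja_eq (a N : ℕ) : Ja a N = ∑ g ∈ N.divisors, (ArithmeticFunction.moebius g : ℝ) * Fa a (N / g) := by
  unfold Ja
  rw [ArithmeticFunction.mul_apply,
    Nat.sum_divisorsAntidiagonal (f := fun x y => ((ArithmeticFunction.moebius : ArithmeticFunction ℝ) x) * Fa a y)]
  rfl

lemma Ja_prime_pow (a : ℕ) {p k : ℕ} (hp : p.Prime) (hk : 0 < k) : 0 ≤ Ja a (p ^ k) := by
  rw [Ja_eq, Nat.sum_divisors_prime_pow hp, sum_range_succ']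
  obtain ⟨k, rfl⟩ : ∃ j, k = j + 1 := ⟨k - 1, by omega⟩
  rw [sum_range_succ']
  have hz : ∑ i ∈ range k, (ArithmeticFunction.moebius (p ^ (i + 1 + 1)) : ℝ) *
      Fa a (p ^ (k + 1) / p ^ (i + 1 + 1)) = 0 := by
    apply sum_eq_zero
    intro i _
    rw [ArithmeticFunction.moebius_apply_prime_pow hp (by omega), if_neg (by omega)]
    simp
  rw [hz]
  have h1 : (ArithmeticFunction.moebius (p ^ (0 + 1)) : ℝ) = -1 := by
    rw [ArithmeticFunction.moebius_apply_prime_pow hp (by omega)]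
    simp
  have h0 : (ArithmeticFunction.moebius (p ^ 0) : ℝ) = 1 := by simp
  rw [h1, h0]
  have e1 : p ^ (k + 1) / p ^ (0 + 1) = p ^ k := by
    rw [zero_add, pow_one, pow_succ, Nat.mul_div_cancel _ hp.pos]
  have e0 : p ^ (k + 1) / p ^ 0 = p ^ (k + 1) := by simp
  rw [e1, e0]
  have hle : Fa a (p ^ k) ≤ Fa a (p ^ (k + 1)) := by
    simp only [Fa_apply]
    apply Real.sqrt_le_sqrt
    have hd : p ^ k ∣ p ^ (k + 1) := pow_dvd_pow p (by omega)
    have h2 : p ^ k ≤ p ^ (k + 1) := Nat.le_of_dvd (pow_pos hp.pos _) hd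
    have h3 : Nat.gcd (p ^ k) a ≤ Nat.gcd (p ^ (k + 1)) a :=
      Nat.le_of_dvd (Nat.gcd_pos_of_pos_left _ (pow_pos hp.pos _)) (Nat.gcd_dvd_gcd_of_dvd_left a hd)
    exact_mod_cast Nat.mul_le_mul h2 h3
  linarith

lemma Ja_nonneg (a N : ℕ) (hN : N ≠ 0) : 0 ≤ Ja a N := by
  rw [ArithmeticFunction.IsMultiplicative.multiplicative_factorization (Ja a) (Ja_mult a) hN]
  unfold Finsupp.prod
  apply prod_nonneg
  intro p hp
  have hpp : p.Prime := Nat.prime_of_mem_primeFactors (by simpa using hp)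
  apply Ja_prime_pow a hpp
  exact Nat.pos_of_ne_zero (Finsupp.mem_support_iff.mp hp)

end

end Pool.Agent.H85.GU
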