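import Mathlib
import Pool.Agent.H85.GU.Star1
import Pool.Agent.H85.GU.Star3

/-!
# Ramanujan sums and the sign of `ζ(1/2)` (inequality (*), helper85)
-/

namespace Pool.Agent.H85.GU

open Finset

noncomputable section

/-- the Ramanujan sum `∑_{b unit} Re e(a b d / N)` -/
def cc (N : ℕ) [NeZero N] (a : ZMod N) (d : ℕ) : ℝ :=
  ∑ b : (ZMod N)ˣ, (ZMod.stdAddChar (a * (b : ZMod N) * (d : ZMod N)) : ℂ).re

lemma dvd_iff (h t d : ℕ) (hh : 0 < h) : h ∣ t * d ↔ h / Nat.gcd h t ∣ d := by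
  have hg : 0 < Nat.gcd h t := Nat.gcd_pos_of_pos_left _ hh
  have hc : Nat.Coprime (h / Nat.gcd h t) (t / Nat.gcd h t) := Nat.coprime_div_gcd_div_gcd hg
  have e1 : h = Nat.gcd h t * (h / Nat.gcd h t) := (Nat.mul_div_cancel' (Nat.gcd_dvd_left h t)).symm
  have e2 : t = Nat.gcd h t * (t / Nat.gcd h t) := (Nat.mul_div_cancel' (Nat.gcd_dvd_right h t)).symm
  constructor
  · intro hd
    have h1 : Nat.gcd h t * (h / Nat.gcd h t) ∣ Nat.gcd h t * ((t / Nat.gcd h t) * d) := by
      rw [← e1, ← mul_assoc, ← e2]; exact hd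
    have h2 := Nat.dvd_of_mul_dvd_mul_left hg h1
    exact hc.dvd_of_dvd_mul_left h2
  · intro hd
    have h1 : Nat.gcd h t * (h / Nat.gcd h t) ∣ t * d :=
      Nat.mul_dvd_mul (Nat.gcd_dvd_right h t) hd
    rwa [← e1] at h1

lemma cc_eq (N : ℕ) [NeZero N] (a : ZMod N) (d : ℕ) :
    cc N a d = ∑ g ∈ N.divisors, (ArithmeticFunction.moebius g : ℝ) *
      (if (N / g) / Nat.gcd (N / g) a.val ∣ d then ((N / g : ℕ) : ℝ) else 0) := by
  classical
  unfold cc
  rw [unit_sum N (fun b => (ZMod.stdAddChar (a * b * (d : ZMod N)) : ℂ).re)]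
  apply sum_congr rfl
  intro g hg
  have hgN : g ∣ N := Nat.dvd_of_mem_divisors hg
  have hg0 : 0 < g := Nat.pos_of_mem_divisors hg
  have hN0 : 0 < N := Nat.pos_of_ne_zero (NeZero.ne N)
  have hh : 0 < N / g := Nat.div_pos (Nat.le_of_dvd hN0 hgN) hg0
  congr 1
  set ζ : ℂ := ZMod.stdAddChar (a * (g : ZMod N) * (d : ZMod N)) with hζ
  have h1 : ∀ k ∈ range (N / g), (ZMod.stdAddChar (a * ((g * k : ℕ) : ZMod N) * (d : ZMod N)) : ℂ).re
      = (ζ ^ k).re := by
    intro k _
    rw [hζ, ← AddChar.map_nsmul_eq_pow]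
    congr 2
    rw [nsmul_eq_mul]
    push_cast
    ring
  rw [sum_congr rfl h1, ← Complex.re_sum]
  have hpow : ζ ^ (N / g) = 1 := by
    rw [hζ, ← AddChar.map_nsmul_eq_pow]
    have : (N / g) • (a * (g : ZMod N) * (d : ZMod N)) = 0 := by
      rw [nsmul_eq_mul]
      have e : (((N / g : ℕ) : ZMod N)) * (a * (g : ZMod N) * (d : ZMod N))
          = (((N / g) * g : ℕ) : ZMod N) * (a * (d : ZMod N)) := by push_cast; ring
      rw [e, Nat.div_mul_cancel hgN]
      simp
    rw [this, AddChar.map_zero_eq_one]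
  have hone : ζ = 1 ↔ (N / g) / Nat.gcd (N / g) a.val ∣ d := by
    rw [← dvd_iff _ _ _ hh, hζ]
    have e0 : a * (g : ZMod N) * (d : ZMod N) = ((a.val * g * d : ℕ) : ZMod N) := by
      push_cast
      rw [ZMod.natCast_zmod_val]
    have e1 : (ZMod.stdAddChar (a * (g : ZMod N) * (d : ZMod N)) : ℂ) = 1 ↔
        a * (g : ZMod N) * (d : ZMod N) = 0 := by
      constructor
      · intro h
        apply ZMod.injective_stdAddChar
        rw [h, AddChar.map_zero_eq_one]
      · intro h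
        rw [h, AddChar.map_zero_eq_one]
    rw [e1, e0, ZMod.natCast_eq_zero_iff]
    have e2 : N = g * (N / g) := (Nat.mul_div_cancel' hgN).symm
    have e3 : a.val * g * d = g * (a.val * d) := by ring
    rw [e3]
    constructor
    · intro h
      have : g * (N / g) ∣ g * (a.val * d) := by rw [← e2]; exact h
      exact Nat.dvd_of_mul_dvd_mul_left hg0 this
    · intro h
      have : g * (N / g) ∣ g * (a.val * d) := Nat.mul_dvd_mul_left g h
      rwa [← e2] at this
  split_ifs with hd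
  · rw [hone.mpr hd]
    simp
  · have hne : ζ ≠ 1 := fun h => hd (hone.mp h)
    rw [geom_sum_eq hne, hpow]
    simp

lemma sum_dvd (q X : ℕ) (hq : 0 < q) (hX : q ∣ X) :
    ∑ d ∈ Icc 1 X, (if q ∣ d then 1 / Real.sqrt (d : ℝ) else 0) = 1 / Real.sqrt (q : ℝ) * P (X / q) := by
  rw [← sum_filter]
  unfold P
  rw [mul_sum]
  symm
  apply sum_nbij' (fun k => q * (k + 1)) (fun d => d / q - 1)
  · intro k hk
    simp only [mem_range, mem_filter, mem_Icc] at *
    refine ⟨⟨Nat.succ_le_of_lt (by positivity), ?_⟩, dvd_mul_right _ _⟩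
    calc q * (k + 1) ≤ q * (X / q) := Nat.mul_le_mul_left q hk
      _ = X := Nat.mul_div_cancel' hX
  · intro d hd
    simp only [mem_range, mem_filter, mem_Icc] at *
    obtain ⟨⟨h1, h2⟩, ⟨k, rfl⟩⟩ := hd
    have hk : 0 < k := Nat.pos_of_ne_zero (by rintro rfl; simp at h1)
    rw [Nat.mul_div_cancel_left k hq]
    have : k ≤ X / q := (Nat.le_div_iff_mul_le hq).mpr (by rw [mul_comm]; exact h2)
    omega
  · intro k _
    rw [Nat.mul_div_cancel_left _ hq]
    rfl
  · intro d hd
    simp only [mem_filter, mem_Icc] at *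
    obtain ⟨⟨h1, h2⟩, ⟨k, rfl⟩⟩ := hd
    have hk : 0 < k := Nat.pos_of_ne_zero (by rintro rfl; simp at h1)
    rw [Nat.mul_div_cancel_left k hq]
    congr 1
    omega
  · intro k _
    push_cast
    rw [Real.sqrt_mul (by positivity)]
    rw [div_mul_div_comm, one_mul]

lemma sum_dvd_one (q X : ℕ) (hq : 0 < q) (hX : q ∣ X) :
    ∑ d ∈ Icc 1 X, (if q ∣ d then (1 : ℝ) else 0) = (X / q : ℕ) := by
  rw [← sum_filter]
  simp only [sum_const, nsmul_eq_mul, mul_one]
  norm_cast
  have : ((Icc 1 X).filter (fun d => q ∣ d)).card = (range (X / q)).card := by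
    symm
    apply card_nbij' (fun k => q * (k + 1)) (fun d => d / q - 1)
    · intro k hk
      simp only [mem_range, mem_filter, mem_Icc, coe_filter, coe_range, Set.mem_Iio, Set.mem_setOf_eq] at *
      refine ⟨⟨Nat.succ_le_of_lt (by positivity), ?_⟩, dvd_mul_right _ _⟩
      calc q * (k + 1) ≤ q * (X / q) := Nat.mul_le_mul_left q hk
        _ = X := Nat.mul_div_cancel' hX
    · intro d hd
      simp only [mem_range, mem_filter, mem_Icc, coe_filter, coe_range, Set.mem_Iio, Set.mem_setOf_eq] at *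
      obtain ⟨⟨h1, h2⟩, ⟨k, rfl⟩⟩ := hd
      have hk : 0 < k := Nat.pos_of_ne_zero (by rintro rfl; simp at h1)
      rw [Nat.mul_div_cancel_left k hq]
      have : k ≤ X / q := (Nat.le_div_iff_mul_le hq).mpr (by rw [mul_comm]; exact h2)
      omega
    · intro k _
      simp only
      rw [Nat.mul_div_cancel_left _ hq]
      rfl
    · intro d hd
      simp only [mem_filter, mem_Icc, coe_filter, Set.mem_setOf_eq] at *
      obtain ⟨⟨h1, h2⟩, ⟨k, rfl⟩⟩ := hd
      have hk : 0 < k := Nat.pos_of_ne_zero (by rintro rfl; simp at h1)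
      rw [Nat.mul_div_cancel_left k hq]
      congr 1
      omega
  rw [this, card_range]

/-- orthogonality: the Ramanujan sums of a nonzero frequency have mean zero -/
lemma sum_cc (N : ℕ) [NeZero N] {a : ZMod N} (ha : a ≠ 0) (M : ℕ) :
    ∑ d ∈ Icc 1 (N * M), cc N a d = 0 := by
  classical
  unfold cc
  rw [sum_comm]
  apply sum_eq_zero
  intro b _
  rw [← Complex.re_sum]
  set ζ : ℂ := ZMod.stdAddChar (a * (b : ZMod N)) with hζ
  have h1 : ∀ d ∈ Icc 1 (N * M), (ZMod.stdAddChar (a * (b : ZMod N) * (d : ZMod N)) : ℂ) = ζ ^ d := by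
    intro d _
    rw [hζ, ← AddChar.map_nsmul_eq_pow]
    congr 1
    rw [nsmul_eq_mul]
    ring
  rw [sum_congr rfl h1]
  have hne : ζ ≠ 1 := by
    intro h
    have h2 : a * (b : ZMod N) = 0 := by
      apply ZMod.injective_stdAddChar
      rw [← hζ, h, AddChar.map_zero_eq_one]
    exact ha ((Units.mul_left_eq_zero b).mp h2)
  have hpow : ζ ^ (N * M) = 1 := by
    rw [hζ, ← AddChar.map_nsmul_eq_pow]
    have : (N * M) • (a * (b : ZMod N)) = 0 := by
      rw [nsmul_eq_mul]
      push_cast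
      simp
    rw [this, AddChar.map_zero_eq_one]
  have h3 : ∑ d ∈ Icc 1 (N * M), ζ ^ d = ζ * ∑ d ∈ range (N * M), ζ ^ d := by
    rw [mul_sum]
    symm
    apply sum_nbij' (fun k => k + 1) (fun k => k - 1)
    · intro k hk; simp only [mem_range, mem_Icc] at *; omega
    · intro k hk; simp only [mem_range, mem_Icc] at *; omega
    · intro k hk; rfl
    · intro k hk; simp only [mem_Icc] at *; omega
    · intro k hk; simp only [pow_succ']
  rw [h3, geom_sum_eq hne, hpow]
  simp

end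

end Pool.Agent.H85.GU
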