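import Mathlib
import Pool.Agent.H85.GU.Star1
import Pool.Agent.H85.GU.Star2
import Pool.Agent.H85.GU.Star4

/-!
# Inequality (*): random unit dilates of a set do not clump (helper85)
-/

namespace Pool.Agent.H85.GU

open Finset

noncomputable section

/-- `(N/g)/gcd(N/g,t)` -/
def qq (N t g : ℕ) : ℕ := (N / g) / Nat.gcd (N / g) t

lemma qq_mul {N t g : ℕ} : qq N t g * Nat.gcd (N / g) t = N / g :=
  Nat.div_mul_cancel (Nat.gcd_dvd_left _ _)

lemma qq_pos {N t g : ℕ} (hN : 0 < N) (hg : g ∣ N) : 0 < qq N t g := by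
  have hg0 : 0 < g := Nat.pos_of_dvd_of_pos hg hN
  have hh : 0 < N / g := Nat.div_pos (Nat.le_of_dvd hN hg) hg0
  exact Nat.div_pos (Nat.le_of_dvd hh (Nat.gcd_dvd_left _ _)) (Nat.gcd_pos_of_pos_left _ hh)

lemma qq_dvd {N t g : ℕ} (hg : g ∣ N) : qq N t g ∣ N := by
  have h1 : qq N t g ∣ N / g := Nat.div_dvd_of_dvd (Nat.gcd_dvd_left _ _)
  exact h1.trans (Nat.div_dvd_of_dvd hg)

lemma gsum (N : ℕ) [NeZero N] {a : ZMod N} (ha : a ≠ 0) :
    ∑ g ∈ N.divisors, (ArithmeticFunction.moebius g : ℝ) * (Nat.gcd (N / g) a.val : ℝ) = 0 := by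
  have hN0 : 0 < N := Nat.pos_of_ne_zero (NeZero.ne N)
  have h := sum_cc N ha 1
  rw [mul_one] at h
  simp only [cc_eq] at h
  rw [sum_comm] at h
  have h1 : ∀ g ∈ N.divisors, ∑ d ∈ Icc 1 N, (ArithmeticFunction.moebius g : ℝ) *
      (if (N / g) / Nat.gcd (N / g) a.val ∣ d then ((N / g : ℕ) : ℝ) else 0)
      = N * ((ArithmeticFunction.moebius g : ℝ) * (Nat.gcd (N / g) a.val : ℝ)) := by
    intro g hg
    have hgN : g ∣ N := Nat.dvd_of_mem_divisors hg
    rw [← mul_sum]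
    have h2 : ∑ d ∈ Icc 1 N, (if (N / g) / Nat.gcd (N / g) a.val ∣ d then ((N / g : ℕ) : ℝ) else 0)
        = ((N / g : ℕ) : ℝ) * ∑ d ∈ Icc 1 N, (if qq N a.val g ∣ d then (1 : ℝ) else 0) := by
      rw [mul_sum]
      apply sum_congr rfl
      intro d _
      unfold qq
      split_ifs <;> simp
    rw [h2, sum_dvd_one _ _ (qq_pos hN0 hgN) (qq_dvd hgN)]
    have h3 : (((N / g : ℕ) : ℝ)) = (qq N a.val g : ℝ) * (Nat.gcd (N / g) a.val : ℝ) := by
      exact_mod_cast (qq_mul (N := N) (t := a.val) (g := g)).symm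
    have h4 : ((N / qq N a.val g : ℕ) : ℝ) * (qq N a.val g : ℝ) = (N : ℝ) := by
      exact_mod_cast Nat.div_mul_cancel (qq_dvd (t := a.val) hgN)
    rw [h3]
    calc (ArithmeticFunction.moebius g : ℝ) * ((qq N a.val g : ℝ) * (Nat.gcd (N / g) a.val : ℝ) *
          ((N / qq N a.val g : ℕ) : ℝ))
        = (((N / qq N a.val g : ℕ) : ℝ) * (qq N a.val g : ℝ)) *
          ((ArithmeticFunction.moebius g : ℝ) * (Nat.gcd (N / g) a.val : ℝ)) := by ring
      _ = _ := by rw [h4]
  rw [sum_congr rfl h1, ← mul_sum] at h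
  have hN1 : (N : ℝ) ≠ 0 := by exact_mod_cast hN0.ne'
  exact (mul_eq_zero.mp h).resolve_left hN1

/-- the truncated sums `∑_{d ≤ N M} c(d) / √d` -/
def TT (N : ℕ) [NeZero N] (a : ZMod N) (M : ℕ) : ℝ := ∑ d ∈ Icc 1 (N * M), cc N a d / Real.sqrt (d : ℝ)

lemma TT_eq (N : ℕ) [NeZero N] {a : ZMod N} (ha : a ≠ 0) (M : ℕ) :
    TT N a M = ∑ g ∈ N.divisors, (ArithmeticFunction.moebius g : ℝ) * Fa a.val (N / g) *
      H (N * M / qq N a.val g) := by
  have hN0 : 0 < N := Nat.pos_of_ne_zero (NeZero.ne N)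
  unfold TT
  simp only [cc_eq, sum_div]
  rw [sum_comm]
  have h1 : ∀ g ∈ N.divisors, ∑ d ∈ Icc 1 (N * M), (ArithmeticFunction.moebius g : ℝ) *
      (if (N / g) / Nat.gcd (N / g) a.val ∣ d then ((N / g : ℕ) : ℝ) else 0) / Real.sqrt (d : ℝ)
      = (ArithmeticFunction.moebius g : ℝ) * Fa a.val (N / g) * H (N * M / qq N a.val g)
        + 2 * Real.sqrt ((N * M : ℕ) : ℝ) *
          ((ArithmeticFunction.moebius g : ℝ) * (Nat.gcd (N / g) a.val : ℝ)) := by
    intro g hg
    have hgN : g ∣ N := Nat.dvd_of_mem_divisors hg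
    have hq0 := qq_pos (t := a.val) hN0 hgN
    have hqd : qq N a.val g ∣ N * M := (qq_dvd (t := a.val) hgN).trans (dvd_mul_right _ _)
    have h2 : ∑ d ∈ Icc 1 (N * M), (ArithmeticFunction.moebius g : ℝ) *
        (if (N / g) / Nat.gcd (N / g) a.val ∣ d then ((N / g : ℕ) : ℝ) else 0) / Real.sqrt (d : ℝ)
        = (ArithmeticFunction.moebius g : ℝ) * ((N / g : ℕ) : ℝ) *
          ∑ d ∈ Icc 1 (N * M), (if qq N a.val g ∣ d then 1 / Real.sqrt (d : ℝ) else 0) := by
      rw [mul_sum]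
      apply sum_congr rfl
      intro d _
      unfold qq
      split_ifs
      · ring
      · simp
    rw [h2, sum_dvd _ _ hq0 hqd]
    have hq1 : (0 : ℝ) < qq N a.val g := by exact_mod_cast hq0
    have hsq : 0 < Real.sqrt (qq N a.val g : ℝ) := Real.sqrt_pos.mpr hq1
    have hsq2 : Real.sqrt (qq N a.val g : ℝ) * Real.sqrt (qq N a.val g : ℝ) = qq N a.val g :=
      Real.mul_self_sqrt hq1.le
    have h3 : (((N / g : ℕ) : ℝ)) = (qq N a.val g : ℝ) * (Nat.gcd (N / g) a.val : ℝ) := by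
      exact_mod_cast (qq_mul (N := N) (t := a.val) (g := g)).symm
    have h4 : Fa a.val (N / g) = Real.sqrt (qq N a.val g : ℝ) * (Nat.gcd (N / g) a.val : ℝ) := by
      rw [Fa_apply, h3]
      have e : (qq N a.val g : ℝ) * (Nat.gcd (N / g) a.val : ℝ) * (Nat.gcd (N / g) a.val : ℝ)
          = (qq N a.val g : ℝ) * (Nat.gcd (N / g) a.val : ℝ) ^ 2 := by ring
      rw [e, Real.sqrt_mul (by positivity), Real.sqrt_sq (by positivity)]
    have h5 : P (N * M / qq N a.val g) = H (N * M / qq N a.val g) +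
        2 * Real.sqrt ((N * M / qq N a.val g : ℕ) : ℝ) := by unfold H; ring
    have h6 : Real.sqrt ((N * M / qq N a.val g : ℕ) : ℝ)
        = Real.sqrt ((N * M : ℕ) : ℝ) / Real.sqrt (qq N a.val g : ℝ) := by
      rw [← Real.sqrt_div (by positivity), Nat.cast_div hqd hq1.ne']
    rw [h5, h6, h4, h3]
    field_simp
    rw [Real.sq_sqrt hq1.le]
    ring
  rw [sum_congr rfl h1, sum_add_distrib, ← mul_sum, gsum N ha, mul_zero, add_zero]

lemma TT_tendsto (N : ℕ) [NeZero N] {a : ZMod N} (ha : a ≠ 0) :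
    Filter.Tendsto (TT N a) Filter.atTop (nhds (Zlim * Ja a.val N)) := by
  have hN0 : 0 < N := Nat.pos_of_ne_zero (NeZero.ne N)
  have h1 : Zlim * Ja a.val N = ∑ g ∈ N.divisors, (ArithmeticFunction.moebius g : ℝ) *
      Fa a.val (N / g) * Zlim := by
    rw [Ja_eq, mul_sum]
    apply sum_congr rfl
    intro g _
    ring
  have h2 : TT N a = fun M => ∑ g ∈ N.divisors, (ArithmeticFunction.moebius g : ℝ) * Fa a.val (N / g) *
      H (N * M / qq N a.val g) := by
    funext M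
    exact TT_eq N ha M
  rw [h1, h2]
  apply tendsto_finsetSum
  intro g hg
  have hgN : g ∣ N := Nat.dvd_of_mem_divisors hg
  have hq0 := qq_pos (t := a.val) hN0 hgN
  apply Filter.Tendsto.const_mul
  apply H_tendsto.comp
  apply Filter.tendsto_atTop_mono (f := fun M : ℕ => M)
  · intro M
    have h3 : qq N a.val g ≤ N := Nat.le_of_dvd hN0 (qq_dvd hgN)
    rw [Nat.le_div_iff_mul_le hq0, mul_comm]
    exact Nat.mul_le_mul_right M h3
  · exact Filter.tendsto_id

lemma lim_nonpos (N : ℕ) [NeZero N] (a : ZMod N) : Zlim * Ja a.val N ≤ 0 :=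
  mul_nonpos_of_nonpos_of_nonneg Zlim_nonpos (Ja_nonneg _ _ (NeZero.ne N))

lemma normSq_std (N : ℕ) [NeZero N] (x : ZMod N) : Complex.normSq (ZMod.stdAddChar x : ℂ) = 1 := by
  rw [ZMod.stdAddChar_apply, Circle.normSq_coe]

/-- positivity against the convex weight -/
lemma V_pos (N : ℕ) [NeZero N] {a : ZMod N} (ha : a ≠ 0) {A : ℕ} (hA : 0 < A) (M : ℕ) :
    0 ≤ V A 0 * (Fintype.card (ZMod N)ˣ : ℝ) + 2 * ∑ d ∈ Icc 1 (N * M), V A d * cc N a d := by
  classical
  have key : ∀ b : (ZMod N)ˣ, 0 ≤ V A 0 + 2 * ∑ d ∈ Icc 1 (N * M), V A d *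
      (ZMod.stdAddChar (a * (b : ZMod N) * (d : ZMod N)) : ℂ).re := by
    intro b
    set ζ : ℂ := ZMod.stdAddChar (a * (b : ZMod N)) with hζ
    have h1 : ∀ d : ℕ, (ZMod.stdAddChar (a * (b : ZMod N) * (d : ZMod N)) : ℂ) = ζ ^ d := by
      intro d
      rw [hζ, ← AddChar.map_nsmul_eq_pow]
      congr 1
      rw [nsmul_eq_mul]
      ring
    simp only [h1]
    have hns : Complex.normSq ζ = 1 := normSq_std N _
    have h2 := convex_pos (V_antitone hA) (V_convex hA) hns (N * M)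
    have hne : ζ ≠ 1 := by
      intro h
      have h2 : a * (b : ZMod N) = 0 := by
        apply ZMod.injective_stdAddChar
        rw [← hζ, h, AddChar.map_zero_eq_one]
      exact ha ((Units.mul_left_eq_zero b).mp h2)
    have hpow : ζ ^ (N * M) = 1 := by
      rw [hζ, ← AddChar.map_nsmul_eq_pow]
      have : (N * M) • (a * (b : ZMod N)) = 0 := by
        rw [nsmul_eq_mul]
        push_cast
        simp
      rw [this, AddChar.map_zero_eq_one]
    have h3 : ∑ d ∈ Icc 1 (N * M), ζ ^ d = ζ * ∑ d ∈ range (N * M), ζ ^ d := by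
      rw [mul_sum]
      symm
      apply sum_nbij' (fun k => k + 1) (fun k => k - 1)
      · intro k hk; simp only [mem_range, mem_Icc] at *; omega
      · intro k hk; simp only [mem_range, mem_Icc] at *; omega
      · intro k hk; rfl
      · intro k hk; simp only [mem_Icc] at *; omega
      · intro k hk; simp only [pow_succ']
    have h4 : DD ζ (N * M) = 1 := by
      unfold DD
      rw [← Complex.re_sum, h3, geom_sum_eq hne, hpow]
      simp
    rw [h4, mul_one] at h2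
    exact (V_nonneg A (N * M)).trans h2
  have h5 := sum_nonneg (fun b (_ : b ∈ (univ : Finset (ZMod N)ˣ)) => key b)
  rw [sum_add_distrib, ← mul_sum, sum_const, card_univ, nsmul_eq_mul, sum_comm] at h5
  have h6 : ∑ d ∈ Icc 1 (N * M), ∑ b : (ZMod N)ˣ, V A d *
      (ZMod.stdAddChar (a * (b : ZMod N) * (d : ZMod N)) : ℂ).re
      = ∑ d ∈ Icc 1 (N * M), V A d * cc N a d := by
    apply sum_congr rfl
    intro d _
    unfold cc
    rw [mul_sum]
  rw [h6] at h5
  linarith [mul_comm (V A 0) (Fintype.card (ZMod N)ˣ : ℝ)]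

/-- the multiplier of the weight `w` at a nonzero frequency -/
lemma mult_le (N : ℕ) [NeZero N] {a : ZMod N} (ha : a ≠ 0) {A : ℕ} (hA : 0 < A) (M : ℕ) :
    2 * ∑ d ∈ Icc 1 (N * M), w A d * cc N a d
      ≤ V A 0 * (Fintype.card (ZMod N)ˣ : ℝ) + 2 * TT N a M := by
  have h1 : ∑ d ∈ Icc 1 (N * M), w A d * cc N a d
      = TT N a M - ∑ d ∈ Icc 1 (N * M), V A d * cc N a d := by
    unfold TT w
    rw [← sum_sub_distrib]
    apply sum_congr rfl
    intro d _
    ring
  rw [h1]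
  linarith [V_pos N ha hA M]

/-- Fourier transform -/
def FF (N : ℕ) [NeZero N] (f : ZMod N → ℝ) (a : ZMod N) : ℂ :=
  ∑ x, (f x : ℂ) * (ZMod.stdAddChar (a * x) : ℂ)

lemma parseval (N : ℕ) [NeZero N] (f : ZMod N → ℝ) (y : ZMod N) :
    ∑ a, Complex.normSq (FF N f a) * (ZMod.stdAddChar (a * y) : ℂ).re
      = N * ∑ x, f x * f (x + y) := by
  classical
  have h0 : ∀ a : ZMod N, ((Complex.normSq (FF N f a) : ℝ) : ℂ) * ZMod.stdAddChar (a * y)
      = ∑ x, ∑ x', ((f x : ℂ) * (f x' : ℂ)) * ZMod.stdAddChar (a * (x - x' + y)) := by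
    intro a
    rw [← Complex.mul_conj]
    unfold FF
    rw [map_sum, sum_mul_sum, sum_mul]
    apply sum_congr rfl
    intro x _
    rw [sum_mul]
    apply sum_congr rfl
    intro x' _
    rw [map_mul (starRingEnd ℂ), Complex.conj_ofReal]
    have h1 : (starRingEnd ℂ) (ZMod.stdAddChar (a * x') : ℂ) = ZMod.stdAddChar (-(a * x')) := by
      rw [AddChar.map_neg_eq_conj]
    rw [h1]
    have h2 : (ZMod.stdAddChar (a * (x - x' + y)) : ℂ)
        = ZMod.stdAddChar (a * x) * ZMod.stdAddChar (-(a * x')) * ZMod.stdAddChar (a * y) := by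
      rw [← AddChar.map_add_eq_mul, ← AddChar.map_add_eq_mul]
      congr 1
      ring
    rw [h2]
    ring
  have h1 : ∑ a, ((Complex.normSq (FF N f a) : ℝ) : ℂ) * ZMod.stdAddChar (a * y)
      = N * ∑ x, (f x : ℂ) * (f (x + y) : ℂ) := by
    simp only [h0]
    rw [sum_comm]
    have h2 : ∀ x : ZMod N, ∑ a : ZMod N, ∑ x', ((f x : ℂ) * (f x' : ℂ)) *
        (ZMod.stdAddChar (a * (x - x' + y)) : ℂ) = N * ((f x : ℂ) * (f (x + y) : ℂ)) := by
      intro x
      rw [sum_comm]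
      have h3 : ∀ x' : ZMod N, ∑ a : ZMod N, ((f x : ℂ) * (f x' : ℂ)) *
          (ZMod.stdAddChar (a * (x - x' + y)) : ℂ)
          = if x' = x + y then (N : ℂ) * ((f x : ℂ) * (f x' : ℂ)) else 0 := by
        intro x'
        rw [← mul_sum, AddChar.sum_mulShift _ (ZMod.isPrimitive_stdAddChar N)]
        have h4 : x - x' + y = 0 ↔ x' = x + y := by
          constructor
          · intro h
            have := sub_eq_zero.mp (show (x + y) - x' = 0 by rw [← h]; ring)
            exact this.symm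
          · intro h
            rw [h]; ring
        simp only [h4, ZMod.card]
        split_ifs
        · push_cast
          ring
        · simp
      simp only [h3]
      rw [sum_ite_eq' univ (x + y) (fun x' => (N : ℂ) * ((f x : ℂ) * (f x' : ℂ)))]
      simp
    simp only [h2]
    rw [← mul_sum]
  have h2 := congrArg Complex.re h1
  rw [Complex.re_sum] at h2
  have h3 : ∀ a : ZMod N, (((Complex.normSq (FF N f a) : ℝ) : ℂ) * (ZMod.stdAddChar (a * y) : ℂ)).re
      = Complex.normSq (FF N f a) * (ZMod.stdAddChar (a * y) : ℂ).re := by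
    intro a
    rw [Complex.re_ofReal_mul]
  simp only [h3] at h2
  rw [h2]
  have h4 : (N : ℂ) * ∑ x, (f x : ℂ) * (f (x + y) : ℂ) = ((N * ∑ x, f x * f (x + y) : ℝ) : ℂ) := by
    push_cast; rfl
  rw [h4, Complex.ofReal_re]

end

end Pool.Agent.H85.GU
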