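import Mathlib
import Pool.Agent.H85.GU.Star5

/-!
# Inequality (*): random unit dilates of a set do not clump (helper85), the theorem

`star`: for `f : ZMod N → ℝ` nonnegative, all `D, A ≥ 1`,
`(1/√D - 1/√(D+A)) · 2 ∑_{d ≤ D} ∑_x ∑_{b unit} f(x) f(x+bd) ≤ φ(N) (4 √A (∑ f)² / N + (1/√A) ∑ f²)`.
-/

namespace Pool.Agent.H85.GU

open Finset

noncomputable section

/-- `∑_x ∑_{b unit} f x f (x + b d)` -/
def QQ (N : ℕ) [NeZero N] (f : ZMod N → ℝ) (d : ℕ) : ℝ :=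
  ∑ x : ZMod N, ∑ b : (ZMod N)ˣ, f x * f (x + (b : ZMod N) * (d : ZMod N))

lemma QQ_nonneg (N : ℕ) [NeZero N] {f : ZMod N → ℝ} (h0 : ∀ x, 0 ≤ f x) (d : ℕ) : 0 ≤ QQ N f d :=
  sum_nonneg fun x _ => sum_nonneg fun _ _ => mul_nonneg (h0 x) (h0 _)

lemma QQ_fourier (N : ℕ) [NeZero N] (f : ZMod N → ℝ) (d : ℕ) :
    (N : ℝ) * QQ N f d = ∑ a, Complex.normSq (FF N f a) * cc N a d := by
  unfold QQ cc
  rw [sum_comm, mul_sum]
  have h1 : ∀ b : (ZMod N)ˣ, (N : ℝ) * ∑ x : ZMod N, f x * f (x + (b : ZMod N) * (d : ZMod N))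
      = ∑ a, Complex.normSq (FF N f a) * (ZMod.stdAddChar (a * (b : ZMod N) * (d : ZMod N)) : ℂ).re := by
    intro b
    rw [← parseval]
    apply sum_congr rfl
    intro a _
    rw [mul_assoc]
  simp only [h1]
  rw [sum_comm]
  apply sum_congr rfl
  intro a _
  rw [mul_sum]

lemma cc_zero (N : ℕ) [NeZero N] (d : ℕ) : cc N 0 d = (Fintype.card (ZMod N)ˣ : ℝ) := by
  unfold cc
  simp

lemma FF_zero (N : ℕ) [NeZero N] (f : ZMod N → ℝ) : Complex.normSq (FF N f 0) = (∑ x, f x) ^ 2 := by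
  unfold FF
  simp only [zero_mul, AddChar.map_zero_eq_one, mul_one]
  rw [← Complex.ofReal_sum, Complex.normSq_ofReal]
  ring

lemma sum_FF (N : ℕ) [NeZero N] (f : ZMod N → ℝ) :
    ∑ a, Complex.normSq (FF N f a) = N * ∑ x, f x ^ 2 := by
  have h := parseval N f 0
  simp only [mul_zero, AddChar.map_zero_eq_one, Complex.one_re, mul_one, add_zero] at h
  rw [h]
  congr 1
  apply sum_congr rfl
  intro x _
  ring

theorem star (N : ℕ) [NeZero N] (f : ZMod N → ℝ) (h0 : ∀ x, 0 ≤ f x) {D A : ℕ} (hD : 0 < D)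
    (hA : 0 < A) :
    (1 / Real.sqrt D - 1 / Real.sqrt ((D : ℝ) + A)) * (2 * ∑ d ∈ Icc 1 D, QQ N f d)
      ≤ (Fintype.card (ZMod N)ˣ : ℝ) *
        (4 * Real.sqrt A * (∑ x, f x) ^ 2 / N + 1 / Real.sqrt A * ∑ x, f x ^ 2) := by
  classical
  have hN0 : 0 < N := Nat.pos_of_ne_zero (NeZero.ne N)
  have hNr : (0 : ℝ) < N := by exact_mod_cast hN0
  set φ : ℝ := (Fintype.card (ZMod N)ˣ : ℝ) with hφ
  have hφ0 : 0 ≤ φ := by positivity
  set E : ZMod N → ℝ := fun a => Complex.normSq (FF N f a) with hE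
  have hE0 : ∀ a, 0 ≤ E a := fun a => Complex.normSq_nonneg _
  have hwD : 0 ≤ w A D := w_nonneg A hD
  -- the inequality at level M
  have key : ∀ M : ℕ, D ≤ N * M → (N : ℝ) * (w A D * (2 * ∑ d ∈ Icc 1 D, QQ N f d))
      ≤ E 0 * (φ * (4 * Real.sqrt A)) +
        ∑ a ∈ univ.erase 0, E a * (V A 0 * φ + 2 * TT N a M) := by
    intro M hM
    have h1 : w A D * (2 * ∑ d ∈ Icc 1 D, QQ N f d) ≤ 2 * ∑ d ∈ Icc 1 (N * M), w A d * QQ N f d := by
      have h2 : w A D * ∑ d ∈ Icc 1 D, QQ N f d ≤ ∑ d ∈ Icc 1 D, w A d * QQ N f d := by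
        rw [mul_sum]
        apply sum_le_sum
        intro d hd
        rw [mem_Icc] at hd
        exact mul_le_mul_of_nonneg_right (w_antitone A hd.1 hd.2) (QQ_nonneg N h0 d)
      have h3 : ∑ d ∈ Icc 1 D, w A d * QQ N f d ≤ ∑ d ∈ Icc 1 (N * M), w A d * QQ N f d := by
        apply sum_le_sum_of_subset_of_nonneg
        · intro d hd
          rw [mem_Icc] at *
          omega
        · intro d hd _
          rw [mem_Icc] at hd
          exact mul_nonneg (w_nonneg A hd.1) (QQ_nonneg N h0 d)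
      linarith
    have h4 : (N : ℝ) * (2 * ∑ d ∈ Icc 1 (N * M), w A d * QQ N f d)
        = ∑ a, E a * (2 * ∑ d ∈ Icc 1 (N * M), w A d * cc N a d) := by
      have h5 : (N : ℝ) * (2 * ∑ d ∈ Icc 1 (N * M), w A d * QQ N f d)
          = 2 * ∑ d ∈ Icc 1 (N * M), w A d * ((N : ℝ) * QQ N f d) := by
        rw [mul_left_comm, mul_sum (Icc 1 (N * M))]
        congr 1
        apply sum_congr rfl
        intro d _
        ring
      rw [h5]
      simp only [QQ_fourier]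
      simp only [mul_sum]
      rw [sum_comm]
      apply sum_congr rfl
      intro a _
      apply sum_congr rfl
      intro d _
      simp only [hE]
      ring
    calc (N : ℝ) * (w A D * (2 * ∑ d ∈ Icc 1 D, QQ N f d))
        ≤ (N : ℝ) * (2 * ∑ d ∈ Icc 1 (N * M), w A d * QQ N f d) :=
          mul_le_mul_of_nonneg_left h1 hNr.le
      _ = ∑ a, E a * (2 * ∑ d ∈ Icc 1 (N * M), w A d * cc N a d) := h4
      _ = E 0 * (2 * ∑ d ∈ Icc 1 (N * M), w A d * cc N 0 d) +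
          ∑ a ∈ univ.erase 0, E a * (2 * ∑ d ∈ Icc 1 (N * M), w A d * cc N a d) := by
          rw [add_sum_erase univ (fun a => E a * (2 * ∑ d ∈ Icc 1 (N * M), w A d * cc N a d)) (mem_univ 0)]
      _ ≤ _ := by
          apply add_le_add
          · apply mul_le_mul_of_nonneg_left _ (hE0 0)
            simp only [cc_zero]
            rw [← sum_mul]
            have := sum_w_le A (N * M)
            have h6 := mul_le_mul_of_nonneg_right this hφ0
            linarith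
          · apply sum_le_sum
            intro a ha
            apply mul_le_mul_of_nonneg_left _ (hE0 a)
            have ha0 : a ≠ 0 := (mem_erase.mp ha).1
            exact mult_le N ha0 hA M
  -- the limit
  have hlim : Filter.Tendsto (fun M : ℕ => E 0 * (φ * (4 * Real.sqrt A)) +
        ∑ a ∈ univ.erase 0, E a * (V A 0 * φ + 2 * TT N a M)) Filter.atTop
      (nhds (E 0 * (φ * (4 * Real.sqrt A)) +
        ∑ a ∈ univ.erase 0, E a * (V A 0 * φ + 2 * (Zlim * Ja a.val N)))) := by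
    apply Filter.Tendsto.const_add
    apply tendsto_finsetSum
    intro a ha
    apply Filter.Tendsto.const_mul
    apply Filter.Tendsto.const_add
    apply Filter.Tendsto.const_mul
    exact TT_tendsto N (mem_erase.mp ha).1
  have h7 : (N : ℝ) * (w A D * (2 * ∑ d ∈ Icc 1 D, QQ N f d)) ≤
      E 0 * (φ * (4 * Real.sqrt A)) +
        ∑ a ∈ univ.erase 0, E a * (V A 0 * φ + 2 * (Zlim * Ja a.val N)) := by
    apply ge_of_tendsto hlim
    rw [Filter.eventually_atTop]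
    refine ⟨D, fun M hM => key M ?_⟩
    calc D ≤ M := hM
      _ ≤ N * M := Nat.le_mul_of_pos_left M hN0
  have h8 : ∑ a ∈ univ.erase 0, E a * (V A 0 * φ + 2 * (Zlim * Ja a.val N))
      ≤ (V A 0 * φ) * (N * ∑ x, f x ^ 2) := by
    calc ∑ a ∈ univ.erase 0, E a * (V A 0 * φ + 2 * (Zlim * Ja a.val N))
        ≤ ∑ a ∈ univ.erase 0, E a * (V A 0 * φ) := by
          apply sum_le_sum
          intro a _
          apply mul_le_mul_of_nonneg_left _ (hE0 a)
          linarith [lim_nonpos N a]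
      _ ≤ ∑ a, E a * (V A 0 * φ) := by
          apply sum_le_sum_of_subset_of_nonneg (erase_subset _ _)
          intro a _ _
          exact mul_nonneg (hE0 a) (mul_nonneg (V_nonneg A 0) hφ0)
      _ = (V A 0 * φ) * (N * ∑ x, f x ^ 2) := by
          rw [← sum_mul, sum_FF, mul_comm]
  have h9 : E 0 = (∑ x, f x) ^ 2 := FF_zero N f
  have hw : w A D = 1 / Real.sqrt D - 1 / Real.sqrt ((D : ℝ) + A) := by
    unfold w V; rfl
  have hV : V A 0 = 1 / Real.sqrt A := by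
    unfold V; simp
  rw [hw] at h7
  rw [hV] at h7 h8
  have h10 : (N : ℝ) * ((1 / Real.sqrt D - 1 / Real.sqrt ((D : ℝ) + A)) * (2 * ∑ d ∈ Icc 1 D, QQ N f d))
      ≤ (N : ℝ) * (φ * (4 * Real.sqrt A * (∑ x, f x) ^ 2 / N + 1 / Real.sqrt A * ∑ x, f x ^ 2)) := by
    have e : (N : ℝ) * (φ * (4 * Real.sqrt A * (∑ x, f x) ^ 2 / N + 1 / Real.sqrt A * ∑ x, f x ^ 2))
        = (∑ x, f x) ^ 2 * (φ * (4 * Real.sqrt A)) + (1 / Real.sqrt A * φ) * (N * ∑ x, f x ^ 2) := by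
      field_simp
    rw [e, ← h9]
    linarith
  exact le_of_mul_le_mul_left h10 hNr

/-- normalised form: `f ≤ 1`, mean `m`; `∑_{0<|d|≤D} E_x E_b f(x) f(x+bd)` -/
theorem star_mean (N : ℕ) [NeZero N] (f : ZMod N → ℝ) (h0 : ∀ x, 0 ≤ f x) (h1 : ∀ x, f x ≤ 1)
    {D A : ℕ} (hD : 0 < D) (hA : 0 < A) (m : ℝ) (hm : m = (∑ x, f x) / N) :
    (1 / Real.sqrt D - 1 / Real.sqrt ((D : ℝ) + A)) *
      (2 * ∑ d ∈ Icc 1 D, QQ N f d / (N * (Fintype.card (ZMod N)ˣ : ℝ)))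
      ≤ 4 * Real.sqrt A * m ^ 2 + 1 / Real.sqrt A * m := by
  have hN0 : 0 < N := Nat.pos_of_ne_zero (NeZero.ne N)
  have hNr : (0 : ℝ) < N := by exact_mod_cast hN0
  have hφ : (0 : ℝ) < (Fintype.card (ZMod N)ˣ : ℝ) := by
    exact_mod_cast Fintype.card_pos
  have h := star N f h0 hD hA
  have hS : ∑ x, f x = N * m := by rw [hm]; field_simp
  have hsq : ∑ x, f x ^ 2 ≤ N * m := by
    rw [← hS]
    apply sum_le_sum
    intro x _
    nlinarith [h0 x, h1 x]
  have hAs : (0 : ℝ) < Real.sqrt A := Real.sqrt_pos.mpr (by exact_mod_cast hA)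
  have h2 : (1 / Real.sqrt D - 1 / Real.sqrt ((D : ℝ) + A)) * (2 * ∑ d ∈ Icc 1 D, QQ N f d)
      ≤ (Fintype.card (ZMod N)ˣ : ℝ) * (4 * Real.sqrt A * (N * m) ^ 2 / N + 1 / Real.sqrt A * (N * m)) := by
    refine h.trans ?_
    apply mul_le_mul_of_nonneg_left _ hφ.le
    rw [hS]
    gcongr
  have e1 : (1 / Real.sqrt D - 1 / Real.sqrt ((D : ℝ) + A)) *
      (2 * ∑ d ∈ Icc 1 D, QQ N f d / (N * (Fintype.card (ZMod N)ˣ : ℝ)))
      = ((1 / Real.sqrt D - 1 / Real.sqrt ((D : ℝ) + A)) * (2 * ∑ d ∈ Icc 1 D, QQ N f d))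
        / (N * (Fintype.card (ZMod N)ˣ : ℝ)) := by
    rw [← sum_div]
    ring
  rw [e1, div_le_iff₀ (by positivity)]
  refine h2.trans (le_of_eq ?_)
  field_simp

/-- inequality (*) with `κ = 1/100` -/
theorem star_half (N : ℕ) [NeZero N] (f : ZMod N → ℝ) (h0 : ∀ x, 0 ≤ f x) (h1 : ∀ x, f x ≤ 1)
    (m : ℝ) (hm : m = (∑ x, f x) / N) (D : ℕ) (hDm : 100 * (D * m) ≤ 1) :
    2 * ∑ d ∈ Icc 1 D, QQ N f d / (N * (Fintype.card (ZMod N)ˣ : ℝ)) ≤ m / 2 := by
  have hN0 : 0 < N := Nat.pos_of_ne_zero (NeZero.ne N)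
  have hNr : (0 : ℝ) < N := by exact_mod_cast hN0
  have hm0 : 0 ≤ m := by rw [hm]; exact div_nonneg (sum_nonneg fun x _ => h0 x) hNr.le
  rcases Nat.eq_zero_or_pos D with rfl | hD
  · simp; linarith
  have h := star_mean N f h0 h1 hD (A := 25 * D) (by omega) m hm
  have hDr : (0 : ℝ) < D := by exact_mod_cast hD
  have hsD : 0 < Real.sqrt (D : ℝ) := Real.sqrt_pos.mpr hDr
  have hsD2 : Real.sqrt (D : ℝ) * Real.sqrt (D : ℝ) = D := Real.mul_self_sqrt hDr.le
  have e1 : Real.sqrt (((25 * D : ℕ) : ℝ)) = 5 * Real.sqrt D := by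
    push_cast
    rw [show (25 : ℝ) * D = 5 ^ 2 * D by ring, Real.sqrt_mul (by positivity), Real.sqrt_sq (by norm_num)]
  have e2 : Real.sqrt ((D : ℝ) + ((25 * D : ℕ) : ℝ)) = Real.sqrt 26 * Real.sqrt D := by
    push_cast
    rw [show (D : ℝ) + 25 * D = 26 * D by ring, Real.sqrt_mul (by norm_num)]
  have h26 : 5 < Real.sqrt 26 := by
    rw [Real.lt_sqrt (by norm_num)]; norm_num
  rw [e1, e2] at h
  set G : ℝ := 2 * ∑ d ∈ Icc 1 D, QQ N f d / (N * (Fintype.card (ZMod N)ˣ : ℝ)) with hG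
  have hG0 : 0 ≤ G := by
    rw [hG]
    apply mul_nonneg (by norm_num)
    apply sum_nonneg
    intro d _
    exact div_nonneg (QQ_nonneg N h0 d) (by positivity)
  -- multiply by √D
  have h2 : (1 - 1 / Real.sqrt 26) * G ≤ 20 * (D * m) * m + 1 / 5 * m := by
    have h3 := mul_le_mul_of_nonneg_left h hsD.le
    have e3 : Real.sqrt D * ((1 / Real.sqrt D - 1 / (Real.sqrt 26 * Real.sqrt D)) * G)
        = (1 - 1 / Real.sqrt 26) * G := by
      field_simp
    have e4 : Real.sqrt D * (4 * (5 * Real.sqrt D) * m ^ 2 + 1 / (5 * Real.sqrt D) * m)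
        = 20 * (D * m) * m + 1 / 5 * m := by
      have : Real.sqrt D * (4 * (5 * Real.sqrt D) * m ^ 2) = 20 * (Real.sqrt D * Real.sqrt D) * m ^ 2 := by ring
      rw [mul_add, this, hsD2]
      field_simp
    rw [e3, e4] at h3
    exact h3
  have h5 : 1 / Real.sqrt 26 ≤ 1 / 5 := by
    apply one_div_le_one_div_of_le (by norm_num) h26.le
  have h6 : (1 - 1 / 5) * G ≤ (1 - 1 / Real.sqrt 26) * G := by
    apply mul_le_mul_of_nonneg_right _ hG0
    linarith
  have h7 : 20 * (D * m) * m ≤ 1 / 5 * m := by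
    have : 20 * (D * m) ≤ 1 / 5 := by linarith
    exact mul_le_mul_of_nonneg_right this hm0
  linarith

end

end Pool.Agent.H85.GU
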